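import Pool.Agent.Helper70.EQ.Goals

/-!
# EQ-FI: the final computation
-/

open MeasureTheory Set

namespace Pool.Agent.Helper70.EQ.FI

open Pool.Agent.Helper70.EQ Pool.Agent.Helper70.KN

theorem T1_pos (hPO : S_PO) {N : ℕ} (hN : 1 ≤ N) (V : Finset (Fin N → ℕ)) (c : ℝ) (h : Thick V c) : 0 < T V 1 := by
  rw [T, X]
  refine mul_pos (by positivity) ?_
  refine Finset.sum_pos (fun J _ => hPO N V c h J) ?_
  rw [Finset.powersetCard_nonempty]
  simpa using hN

theorem choose_step (n r : ℕ) (hr : 1 ≤ r) (hn : 1 ≤ n) :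
    ((n + r - 2).choose (r - 1) : ℝ) * ((n : ℝ) + r - 1) = ((n + r - 1).choose (r - 1) : ℝ) * n := by
  obtain ⟨r, rfl⟩ := Nat.exists_eq_add_of_le' hr
  obtain ⟨n, rfl⟩ := Nat.exists_eq_add_of_le' hn
  have e1 : n + 1 + (r + 1) - 2 = n + r := by omega
  have e2 : n + 1 + (r + 1) - 1 = n + r + 1 := by omega
  rw [e1, e2, Nat.add_sub_cancel]
  have h := Nat.choose_mul_succ_eq (n + r) r
  have h' : n + r + 1 - r = n + 1 := by omega
  rw [h'] at h
  have h2 : ((n + r).choose r : ℝ) * ((n : ℝ) + r + 1) = ((n + r + 1).choose r : ℝ) * ((n : ℝ) + 1) := by exact_mod_cast h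
  push_cast
  linarith [h2]

theorem t (hPB : G_PB) (hMB : G_MB) (hSR : G_SR) (hPO : S_PO) : G_FI := by
  intro n r V c hn hr hV hc hnum
  have hc0 : 0 < c := hV.2.1
  have hn' : (3 : ℝ) ≤ n := by exact_mod_cast hn
  have hr' : (1 : ℝ) ≤ r := by exact_mod_cast hr
  have hc1 : (1 : ℝ) ≤ c := by linarith
  have hP := hPB (n + r) r V c (by omega) hV hc1
  have hM := hMB (n + r) r V c hr (by omega) hV (by push_cast; exact hc)
  have hT := T1_pos hPO (by omega) V c hV
  have hs := (hSR r (n + r)).1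
  have hs0 : 0 ≤ sj r (n + r) := by rw [hs]; positivity
  rw [← hs]
  have hB : ((n + r - 1).choose n : ℝ) = ((n + r - 1).choose (r - 1) : ℝ) := by
    have : n + r - 1 - n = r - 1 := by omega
    rw [← this, Nat.choose_symm (by omega)]
  have hB0 : (0 : ℝ) < ((n + r - 1).choose n : ℝ) := by
    exact_mod_cast Nat.choose_pos (by omega)
  have hst := choose_step n r hr (by omega)
  rw [← hB] at hst
  have hM' : ((n + r - 1).choose n : ℝ) * T V 0 - ((n + r - 2).choose (r - 1) : ℝ) * T V 1 ≤ milnorCI r V := by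
    rw [hB]; exact hM
  unfold Num at hnum
  set B : ℝ := ((n + r - 1).choose n : ℝ)
  set B' : ℝ := ((n + r - 2).choose (r - 1) : ℝ)
  set s := sj r (n + r)
  set s1 := sj r (n + r - 1)
  set t1 := tj r (n + r - 1)
  set t2 := tj r (n + r - 2)
  set p := genusCI r V
  set m := milnorCI r V
  set T0 := T V 0
  set T1 := T V 1
  push_cast at hP
  have hN1 : (0 : ℝ) < (n : ℝ) + r - 1 := by linarith
  have h1 : B * (((n + r).factorial : ℝ) * p) ≤ B * (s * T0 - ((n + r) * s1 - t1) / 2 * T1 +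
      ((n : ℝ) + r - 1) ^ 3 / (8 * c) * t2 * T1) := mul_le_mul_of_nonneg_left hP hB0.le
  have h2 : s * (B * T0 - B' * T1) ≤ s * m := mul_le_mul_of_nonneg_left hM' hs0
  have hB' : B' = B * n / ((n : ℝ) + r - 1) := by
    rw [eq_div_iff hN1.ne']
    exact hst
  have hkey : 0 < B * T1 * ((((n : ℝ) + r) * s1 - t1) / 2 - ((n : ℝ) + r - 1) ^ 3 / (8 * c) * t2 - n * s / ((n : ℝ) + r - 1)) := by
    refine mul_pos (mul_pos hB0 hT) ?_
    have e : (((n : ℝ) + r) * s1 - t1) / 2 - ((n : ℝ) + r - 1) ^ 3 / (8 * c) * t2 - n * s / ((n : ℝ) + r - 1) =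
        (4 * c * (((n : ℝ) + r - 1) * (((n : ℝ) + r) * s1 - t1) - 2 * n * s) - ((n : ℝ) + r - 1) ^ 4 * t2) /
          (8 * c * ((n : ℝ) + r - 1)) := by
      field_simp
      ring
    rw [e]
    exact div_pos (by linarith) (by positivity)
  have h3 : s * (B * T0 - B' * T1) - B * (s * T0 - ((n + r) * s1 - t1) / 2 * T1 +
      ((n : ℝ) + r - 1) ^ 3 / (8 * c) * t2 * T1) = B * T1 * ((((n : ℝ) + r) * s1 - t1) / 2 -
        ((n : ℝ) + r - 1) ^ 3 / (8 * c) * t2 - n * s / ((n : ℝ) + r - 1)) := by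
    rw [hB']
    field_simp
    ring
  calc B * ((n + r).factorial : ℝ) * p = B * (((n + r).factorial : ℝ) * p) := by ring
    _ < s * m := by linarith

end Pool.Agent.Helper70.EQ.FI
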