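import Pool.Agent.Helper70.EQ.Goals

/-!
# EQ-MB: the lower bound of the Milnor number
-/

open MeasureTheory Set

namespace Pool.Agent.Helper70.EQ.MB0

open Pool.Agent.Helper70.EQ Pool.Agent.Helper70.KN

variable {N : ℕ}

theorem zero_notMem {V : Finset (Fin N → ℕ)} {c : ℝ} (h : Thick V c) : (0 : Fin N → ℝ) ∉ newton V := by
  obtain ⟨-, hc, h0, hv⟩ := h
  rintro ⟨z, hz, hz0⟩
  have hconv : Convex ℝ {x : Fin N → ℝ | c ≤ ∑ i, x i} := by
    intro x hx y hy a b ha hb hab
    change c ≤ ∑ i, (a • x + b • y) i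
    have : ∑ i, (a • x + b • y) i = a * ∑ i, x i + b * ∑ i, y i := by
      simp [Finset.sum_add_distrib, Finset.mul_sum]
    rw [this]
    have hx' : c ≤ ∑ i, x i := hx
    have hy' : c ≤ ∑ i, y i := hy
    nlinarith
  have hsub : ((fun (v : Fin N → ℕ) (i : Fin N) => (v i : ℝ)) '' (V : Set (Fin N → ℕ))) ⊆ {x : Fin N → ℝ | c ≤ ∑ i, x i} := by
    rintro _ ⟨v, hvV, rfl⟩
    change c ≤ ∑ i, (v i : ℝ)
    have hne : v ≠ 0 := fun h => h0 (h ▸ hvV)
    obtain ⟨i, hi⟩ := Function.ne_iff.1 hne
    exact (hv v hvV i hi).trans (Finset.single_le_sum (f := fun i => (v i : ℝ)) (fun j _ => by positivity) (Finset.mem_univ i))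
  have h1 : c ≤ ∑ i, z i := convexHull_min hsub hconv hz
  have h2 : ∑ i, z i ≤ 0 := Finset.sum_nonpos fun i _ => hz0 i
  linarith

theorem T_last {V : Finset (Fin N → ℕ)} {c : ℝ} (h : Thick V c) : T V N = 1 := by
  unfold T X
  have h1 : (Finset.univ : Finset (Fin N)).powersetCard N = {Finset.univ} := by
    have := Finset.powersetCard_self (Finset.univ : Finset (Fin N))
    rwa [Finset.card_univ, Fintype.card_fin] at this
  rw [h1, Finset.sum_singleton, Nat.sub_self, Nat.factorial_zero, Nat.cast_one, one_mul, W]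
  have h2 : cyl V Finset.univ = Set.pi Set.univ (fun _ : Fin N => Ico (0 : ℝ) 1) := by
    ext x
    simp only [cyl, Set.mem_ofPred_eq, Set.mem_pi, Set.mem_univ, true_imp_iff, Set.mem_Ico, Finset.mem_univ]
    have h3 : zr Finset.univ x = 0 := by
      funext k
      simp [zr]
    rw [h3]
    constructor
    · rintro ⟨ha, hb, -⟩ i
      exact ⟨ha i, hb i⟩
    · intro hx
      exact ⟨fun i => (hx i).1, fun i => (hx i).2, zero_notMem h⟩
  rw [h2, Real.volume_pi_Ico]
  simp

theorem t (hMT : G_MT) (hXX : S_XX) (hAL : S_AL) : G_MB := by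
  intro N r V c hr hrN hT hc
  have hc0 : 0 < c := hT.2.1
  have hX0 : ∀ k, 0 ≤ T V k := fun k => by
    unfold T X
    refine mul_nonneg (by positivity) (Finset.sum_nonneg fun J _ => ?_)
    exact ENNReal.toReal_nonneg
  have hdec : ∀ k, k < N → T V (k + 1) ≤ T V k := by
    intro k hk
    have h1 := hXX N V c hT k hk
    have hkN : (k : ℝ) < N := by exact_mod_cast hk
    have hk0 : (0 : ℝ) ≤ k := Nat.cast_nonneg k
    have hle : (N : ℝ) - k ≤ c := by linarith
    have h2 : ((N : ℝ) - k) * T V k ≤ c * T V k := mul_le_mul_of_nonneg_right hle (hX0 k)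
    have h3 : c * T V (k + 1) ≤ ((k : ℝ) + 1) * c * T V (k + 1) := by
      have : 0 ≤ (k : ℝ) * (c * T V (k + 1)) := mul_nonneg (by positivity) (mul_nonneg hc0.le (hX0 _))
      linarith
    exact le_of_mul_le_mul_left (by linarith) hc0
  rw [hMT N r V hr (by omega)]
  set n := N - r with hn
  have hn3 : 3 ≤ n := by omega
  -- the sequence
  set b : ℕ → ℝ := fun k => if k ≤ n then ((N - k - 1).choose (r - 1) : ℝ) * T V k else if k = n + 1 then 1 else 0 with hb
  have hb0 : ∀ k, 0 ≤ b k := by
    intro k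
    simp only [hb]
    split_ifs
    · exact mul_nonneg (by positivity) (hX0 k)
    · exact zero_le_one
    · exact le_rfl
  have hlast : ∀ k, k ≤ N → 1 ≤ T V k := by
    intro k hk
    have : ∀ j, j ≤ N - k → 1 ≤ T V (N - j) := by
      intro j
      induction j with
      | zero => intro _; rw [Nat.sub_zero, T_last hT]
      | succ j ih =>
        intro hj
        have h1 := ih (by omega)
        have h2 := hdec (N - (j + 1)) (by omega)
        rw [show N - (j + 1) + 1 = N - j by omega] at h2
        linarith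
    have h := this (N - k) le_rfl
    rwa [Nat.sub_sub_self hk] at h
  have hbd : ∀ k, b (k + 1) ≤ b k := by
    intro k
    simp only [hb]
    by_cases h1 : k + 1 ≤ n
    · rw [if_pos h1, if_pos (by omega)]
      refine mul_le_mul ?_ (hdec k (by omega)) (hX0 _) (by positivity)
      exact_mod_cast Nat.choose_le_choose (r - 1) (by omega)
    · rw [if_neg h1]
      by_cases h2 : k + 1 = n + 1
      · rw [if_pos h2, if_pos (by omega)]
        have h3 : k = n := by omega
        have h4 : N - k - 1 = r - 1 := by omega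
        rw [h4, Nat.choose_self, Nat.cast_one, one_mul]
        exact hlast k (by omega)
      · rw [if_neg h2]
        have := hb0 k
        simpa [hb] using this
  have key := hAL (n + 1) b hb0 (fun k _ => hbd k) (by omega)
  have hsum : ∑ k ∈ Finset.range (n + 1 + 1), (-1) ^ k * b k =
      ∑ k ∈ Finset.range (n + 1), (-1) ^ k * ((N - k - 1).choose (r - 1) : ℝ) * T V k - (-1) ^ n := by
    rw [Finset.sum_range_succ]
    have e1 : b (n + 1) = 1 := by simp [hb]
    rw [e1, pow_succ]
    have e2 : ∑ k ∈ Finset.range (n + 1), (-1) ^ k * b k =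
        ∑ k ∈ Finset.range (n + 1), (-1) ^ k * ((N - k - 1).choose (r - 1) : ℝ) * T V k := by
      refine Finset.sum_congr rfl fun k hk => ?_
      have : k ≤ n := by
        have := Finset.mem_range.1 hk
        omega
      simp only [hb, if_pos this]
      ring
    rw [e2]
    ring
  rw [hsum] at key
  have e0 : b 0 = ((N - 1).choose (r - 1) : ℝ) * T V 0 := by simp [hb]
  have e1 : b 1 = ((N - 2).choose (r - 1) : ℝ) * T V 1 := by
    simp only [hb]
    rw [if_pos (by omega), show N - 1 - 1 = N - 2 by omega]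
  have h23 := hbd 2
  rw [e0, e1] at key
  linarith

end Pool.Agent.Helper70.EQ.MB0
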