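import Pool.Agent.Helper70.EQ.Goals
import Pool.Agent.Helper15.KN.FBF

/-!
# EQ-SP: rounding up one more coordinate
-/

open MeasureTheory Set Function

namespace Pool.Agent.Helper70.EQ.SP

open Pool.Agent.Helper70.EQ Pool.Agent.Helper70.KN

variable {N : ℕ}

theorem meas1 {f : (Fin N → ℝ) → ENNReal} (hf : Measurable f) (i : Fin N) :
    Measurable fun x : Fin N → ℝ => ∫⁻ t : ℝ, f (update x i t) := by
  have h1 := hf.lmarginal (μ := fun _ : Fin N => (volume : Measure ℝ)) (s := {i})
  rw [lmarginal_singleton] at h1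
  exact h1

theorem meas2 {f : (Fin N → ℝ) → ENNReal} (hf : Measurable f) (i a : Fin N) :
    Measurable fun x : Fin N → ℝ => ∫⁻ s : ℝ, ∫⁻ t : ℝ, f (update (update x a s) i t) :=
  meas1 (meas1 hf i) a

/-- The unit slab in the direction `i`. -/
def slab (i : Fin N) : Set (Fin N → ℝ) := {x | 0 ≤ x i ∧ x i < 1}

theorem measurableSet_slab (i : Fin N) : MeasurableSet (slab i) :=
  (measurableSet_le measurable_const (measurable_pi_apply i)).inter
    (measurableSet_lt (measurable_pi_apply i) measurable_const)

theorem fb2 {f : (Fin N → ℝ) → ENNReal} (hf : Measurable f) {i a : Fin N} (hia : a ≠ i) :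
    ∫⁻ x, f x = ∫⁻ x in slab a ∩ slab i, ∫⁻ s : ℝ, ∫⁻ t : ℝ, f (update (update x a s) i t) := by
  have h1 := Pool.Agent.Helper15.KN.FBF.t N f i hf
  rw [h1]
  change ∫⁻ x in slab i, _ = _
  rw [← lintegral_indicator (measurableSet_slab i)]
  rw [Pool.Agent.Helper15.KN.FBF.t N _ a ((meas1 hf i).indicator (measurableSet_slab i))]
  change ∫⁻ x in slab a, _ = _
  rw [← lintegral_indicator (measurableSet_slab a),
    ← lintegral_indicator ((measurableSet_slab a).inter (measurableSet_slab i))]
  refine lintegral_congr fun x => ?_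
  by_cases ha : x ∈ slab a
  · by_cases hi : x ∈ slab i
    · rw [indicator_of_mem ha, indicator_of_mem (mem_inter ha hi)]
      refine lintegral_congr fun s => ?_
      rw [indicator_of_mem]
      change 0 ≤ update x a s i ∧ update x a s i < 1
      rw [update_of_ne hia.symm]
      exact hi
    · rw [indicator_of_mem ha, indicator_of_notMem (fun h => hi h.2)]
      rw [← lintegral_zero (μ := (volume : Measure ℝ))]
      refine lintegral_congr fun s => ?_
      rw [indicator_of_notMem]
      change ¬ (0 ≤ update x a s i ∧ update x a s i < 1)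
      rw [update_of_ne hia.symm]
      exact hi
  · rw [indicator_of_notMem ha, indicator_of_notMem (fun h => ha h.1)]

/-- The area of the section of `S` in the directions `a`, `i`. -/
noncomputable def sec (S : Set (Fin N → ℝ)) (i a : Fin N) (x : Fin N → ℝ) : ENNReal :=
  ∫⁻ s : ℝ, ∫⁻ t : ℝ, S.indicator 1 (update (update x a s) i t)

theorem vol_eq {S : Set (Fin N → ℝ)} (hS : MeasurableSet S) {i a : Fin N} (hia : a ≠ i) :
    volume S = ∫⁻ x in slab a ∩ slab i, sec S i a x := by
  rw [← lintegral_indicator_one hS]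
  exact fb2 (measurable_one.indicator hS) hia

theorem meas_sec {S : Set (Fin N → ℝ)} (hS : MeasurableSet S) (i a : Fin N) : Measurable (sec S i a) :=
  meas2 (measurable_one.indicator hS) i a

theorem inner_eq {S : Set (Fin N → ℝ)} (hS : MeasurableSet S) (i a : Fin N) (x : Fin N → ℝ) (s : ℝ) :
    ∫⁻ t : ℝ, S.indicator 1 (update (update x a s) i t) = volume {t : ℝ | update (update x a s) i t ∈ S} := by
  have hm : MeasurableSet {t : ℝ | update (update x a s) i t ∈ S} := (measurable_update _) hS
  rw [← lintegral_indicator_one hm]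
  rfl

theorem up_update {A : Finset (Fin N)} {i a : Fin N} (haA : a ∉ A) (hiA : i ∉ A) (x : Fin N → ℝ) (s t : ℝ) :
    up A (update (update x a s) i t) = update (update (up A x) a s) i t := by
  funext k
  by_cases hki : k = i
  · subst hki
    simp [up, hiA]
  · by_cases hka : k = a
    · subst hka
      simp [up, haA, hki]
    · simp [up, hki, hka]

theorem up_insert_update {A : Finset (Fin N)} {i a : Fin N} (hia : a ≠ i) (haA : a ∉ A) (hiA : i ∉ A)
    (x : Fin N → ℝ) (s t : ℝ) :
    up (insert a A) (update (update x a s) i t) = update (update (up A x) a ((⌊s⌋ : ℝ) + 1)) i t := by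
  funext k
  by_cases hki : k = i
  · subst hki
    simp [up, hiA, hia.symm]
  · by_cases hka : k = a
    · subst hka
      simp [up, hki]
    · simp [up, hki, hka]

theorem up_ge (A : Finset (Fin N)) (x : Fin N → ℝ) : x ≤ up A x := by
  intro k
  by_cases h : k ∈ A
  · simp only [up, h, if_true]
    exact (Int.lt_floor_add_one _).le
  · simp [up, h]

theorem nonneg_update {x : Fin N → ℝ} {i a : Fin N} (hia : a ≠ i) (hx : ∀ k, k ≠ a → k ≠ i → 0 ≤ x k) (s t : ℝ) :
    0 ≤ update (update x a s) i t ↔ 0 ≤ s ∧ 0 ≤ t := by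
  constructor
  · intro h
    have h1 := h a
    have h2 := h i
    rw [update_of_ne hia, update_self] at h1
    rw [update_self] at h2
    exact ⟨h1, h2⟩
  · rintro ⟨h1, h2⟩ k
    by_cases hki : k = i
    · subst hki
      simpa using h2
    · by_cases hka : k = a
      · subst hka
        simpa [hki] using h1
      · simpa [hki, hka] using hx k hka hki

theorem not_nonneg_update {x : Fin N → ℝ} {i a k : Fin N} (hka : k ≠ a) (hki : k ≠ i) (hk : x k < 0) (s t : ℝ) :
    ¬ 0 ≤ update (update x a s) i t := by
  intro h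
  have := h k
  rw [update_of_ne hki, update_of_ne hka] at this
  exact absurd hk (not_lt.2 this)

/-- The section of a set of the form `{x | 0 ≤ x ∧ q x}`. -/
theorem sec_D {V : Finset (Fin N → ℕ)} {A : Finset (Fin N)} (hm : MeasurableSet (D V A)) {i a : Fin N} (hia : a ≠ i)
    (haA : a ∉ A) (hiA : i ∉ A) {x : Fin N → ℝ} (hx : ∀ k, k ≠ a → k ≠ i → 0 ≤ x k) :
    sec (D V A) i a x = ∫⁻ s in Ici (0 : ℝ), len V i (update (up A x) a s) := by
  rw [sec, ← lintegral_indicator measurableSet_Ici]
  refine lintegral_congr fun s => ?_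
  rw [inner_eq hm]
  by_cases hs : 0 ≤ s
  · rw [indicator_of_mem (mem_Ici.2 hs), len]
    congr 1
    ext t
    change (0 ≤ update (update x a s) i t ∧ up A (update (update x a s) i t) ∉ newton V) ↔
      (0 ≤ t ∧ update (update (up A x) a s) i t ∉ newton V)
    rw [nonneg_update hia hx, up_update haA hiA]
    tauto
  · rw [indicator_of_notMem (by simpa using hs)]
    have : {t : ℝ | update (update x a s) i t ∈ D V A} = ∅ := by
      ext t
      simp only [mem_empty_iff_false, iff_false]
      intro h
      exact hs ((nonneg_update hia hx s t).1 h.1).1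
    rw [this, measure_empty]

theorem sec_D' {V : Finset (Fin N → ℕ)} {A : Finset (Fin N)} {i a : Fin N} (hm : MeasurableSet (D V (insert a A)))
    (hia : a ≠ i) (haA : a ∉ A) (hiA : i ∉ A) {x : Fin N → ℝ} (hx : ∀ k, k ≠ a → k ≠ i → 0 ≤ x k) :
    sec (D V (insert a A)) i a x = ∫⁻ s in Ici (0 : ℝ), len V i (update (up A x) a ((⌊s⌋ : ℝ) + 1)) := by
  rw [sec, ← lintegral_indicator measurableSet_Ici]
  refine lintegral_congr fun s => ?_
  rw [inner_eq hm]
  by_cases hs : 0 ≤ s
  · rw [indicator_of_mem (mem_Ici.2 hs), len]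
    congr 1
    ext t
    change (0 ≤ update (update x a s) i t ∧ up (insert a A) (update (update x a s) i t) ∉ newton V) ↔
      (0 ≤ t ∧ update (update (up A x) a ((⌊s⌋ : ℝ) + 1)) i t ∉ newton V)
    rw [nonneg_update hia hx, up_insert_update hia haA hiA]
    tauto
  · rw [indicator_of_notMem (by simpa using hs)]
    have : {t : ℝ | update (update x a s) i t ∈ D V (insert a A)} = ∅ := by
      ext t
      simp only [mem_empty_iff_false, iff_false]
      intro h
      exact hs ((nonneg_update hia hx s t).1 h.1).1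
    rw [this, measure_empty]

theorem zr_update {i a : Fin N} (hia : a ≠ i) (x : Fin N → ℝ) (s t : ℝ) :
    zr {a} (update (update x a s) i t) = update (update x a 0) i t := by
  funext k
  by_cases hki : k = i
  · subst hki
    simp [zr, hia.symm]
  · by_cases hka : k = a
    · subst hka
      simp [zr, hki]
    · simp [zr, hki, hka]

theorem sec_cyl {V : Finset (Fin N → ℕ)} {i a : Fin N} (hm : MeasurableSet (cyl V {a}))
    (hia : a ≠ i) {x : Fin N → ℝ} (hx : ∀ k, k ≠ a → k ≠ i → 0 ≤ x k) :
    sec (cyl V {a}) i a x = len V i (update x a 0) := by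
  have h1 : ∀ s : ℝ, ∫⁻ t : ℝ, (cyl V {a}).indicator 1 (update (update x a s) i t) =
      (Ico (0 : ℝ) 1).indicator (fun _ => len V i (update x a 0)) s := by
    intro s
    rw [inner_eq hm]
    by_cases hs : s ∈ Ico (0 : ℝ) 1
    · rw [indicator_of_mem hs, len]
      congr 1
      ext t
      change (0 ≤ update (update x a s) i t ∧ (∀ j ∈ ({a} : Finset (Fin N)), update (update x a s) i t j < 1) ∧
        zr {a} (update (update x a s) i t) ∉ newton V) ↔ (0 ≤ t ∧ update (update x a 0) i t ∉ newton V)
      rw [nonneg_update hia hx, zr_update hia]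
      have h2 : ∀ j ∈ ({a} : Finset (Fin N)), update (update x a s) i t j < 1 := by
        intro j hj
        rw [Finset.mem_singleton] at hj
        subst hj
        simpa [hia] using hs.2
      have := hs.1
      tauto
    · rw [indicator_of_notMem hs]
      have : {t : ℝ | update (update x a s) i t ∈ cyl V {a}} = ∅ := by
        ext t
        simp only [mem_empty_iff_false, iff_false]
        intro h
        apply hs
        refine ⟨((nonneg_update hia hx s t).1 h.1).1, ?_⟩
        have h3 := h.2.1 a (Finset.mem_singleton_self a)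
        simpa [hia] using h3
      rw [this, measure_empty]
  rw [sec]
  simp_rw [h1]
  rw [lintegral_indicator measurableSet_Ico]
  simp

theorem sec_zero {V : Finset (Fin N → ℕ)} {A : Finset (Fin N)} (hm : MeasurableSet (D V A)) {i a k : Fin N}
    (hka : k ≠ a) (hki : k ≠ i) {x : Fin N → ℝ} (hk : x k < 0) : sec (D V A) i a x = 0 := by
  rw [sec, ← lintegral_zero (μ := (volume : Measure ℝ))]
  refine lintegral_congr fun s => ?_
  rw [inner_eq hm]
  have : {t : ℝ | update (update x a s) i t ∈ D V A} = ∅ := by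
    ext t
    simp only [mem_empty_iff_false, iff_false]
    intro h
    exact not_nonneg_update hka hki hk s t h.1
  rw [this, measure_empty]

theorem len_mono {V : Finset (Fin N → ℕ)} (hU : IsUpperSet (newton V)) (i : Fin N) {x y : Fin N → ℝ} (h : x ≤ y) :
    len V i y ≤ len V i x := by
  refine measure_mono fun t ht => ⟨ht.1, fun hx => ht.2 (hU ?_ hx)⟩
  intro k
  by_cases hk : k = i
  · subst hk
    simp
  · simpa [hk] using h k

theorem sec_le (hTZ : G_TZ) (hLN : G_LN) (hCL : S_CL) (hMD : G_MD) (hMF : S_MF) (V : Finset (Fin N → ℕ)) (hV : Convenient V)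
    (i a : Fin N) (A : Finset (Fin N)) (hia : a ≠ i) (haA : a ∉ A) (hiA : i ∉ A) (x : Fin N → ℝ) :
    sec (D V A) i a x ≤ sec (D V (insert a A)) i a x + sec (cyl V {a}) i a x / 2 := by
  by_cases hx : ∀ k, k ≠ a → k ≠ i → 0 ≤ x k
  swap
  · push Not at hx
    obtain ⟨k, hka, hki, hk⟩ := hx
    rw [sec_zero (hMD N V hV A).1 hka hki hk]
    exact zero_le
  rw [sec_D (hMD N V hV A).1 hia haA hiA hx, sec_D' (hMD N V hV _).1 hia haA hiA hx, sec_cyl (hMF N V hV {a}).1 hia hx]
  -- replace `up A x` by a nonnegative vector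
  set z : Fin N → ℝ := fun k => if k = a ∨ k = i then 0 else up A x k with hz
  have hz0 : 0 ≤ z := by
    intro k
    simp only [hz]
    split_ifs with hk
    · exact le_rfl
    · push Not at hk
      exact (hx k hk.1 hk.2).trans (up_ge A x k)
  have hlz : ∀ s : ℝ, len V i (update (up A x) a s) = len V i (update z a s) := by
    intro s
    rw [len, len]
    congr 1
    ext t
    have : update (update (up A x) a s) i t = update (update z a s) i t := by
      funext k
      by_cases hki : k = i
      · subst hki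
        simp
      · by_cases hka : k = a
        · subst hka
          simp [hki]
        · simp [hki, hka, hz]
    change (0 ≤ t ∧ _) ↔ (0 ≤ t ∧ _)
    rw [this]
  obtain ⟨hfin, hconv⟩ := hLN N V hV i a hia z hz0
  have key := hTZ _ hconv (fun s _ => ENNReal.toReal_nonneg)
  have e1 : ∫⁻ s in Ici (0 : ℝ), ENNReal.ofReal (len V i (update z a s)).toReal =
      ∫⁻ s in Ici (0 : ℝ), len V i (update z a s) :=
    setLIntegral_congr_fun measurableSet_Ici fun s hs => ENNReal.ofReal_toReal (hfin s hs)
  have e2 : ∫⁻ s in Ici (0 : ℝ), ENNReal.ofReal (len V i (update z a ((⌊s⌋ : ℝ) + 1))).toReal =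
      ∫⁻ s in Ici (0 : ℝ), len V i (update z a ((⌊s⌋ : ℝ) + 1)) := by
    refine setLIntegral_congr_fun measurableSet_Ici fun s hs => ENNReal.ofReal_toReal (hfin _ ?_)
    have : (0 : ℝ) ≤ (⌊s⌋ : ℝ) := by exact_mod_cast Int.floor_nonneg.2 hs
    linarith
  rw [e1, e2] at key
  simp_rw [hlz]
  refine key.trans ?_
  rw [add_comm]
  refine add_le_add le_rfl ?_
  rw [ENNReal.ofReal_div_of_pos (by norm_num), ENNReal.ofReal_toReal (hfin 0 le_rfl), ENNReal.ofReal_ofNat]
  refine ENNReal.div_le_div_right ?_ 2
  rw [← hlz]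
  refine len_mono (hCL N V).2.2 i ?_
  intro k
  by_cases hk : k = a
  · subst hk
    simp
  · simpa [hk] using up_ge A x k

theorem t' (hTZ : G_TZ) (hLN : G_LN) (hCL : S_CL) (hMD : G_MD) (hMF : S_MF) : G_SP := by
  intro N V hV i a A hia haA hiA
  have h1 := vol_eq (hMD N V hV A).1 hia
  have h2 := vol_eq (hMD N V hV (insert a A)).1 hia
  have h3 := vol_eq (hMF N V hV {a}).1 hia
  have key : volume (D V A) ≤ volume (D V (insert a A)) + volume (cyl V {a}) / 2 := by
    rw [h1, h2, h3]
    calc ∫⁻ x in slab a ∩ slab i, sec (D V A) i a x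
        ≤ ∫⁻ x in slab a ∩ slab i, (sec (D V (insert a A)) i a x + sec (cyl V {a}) i a x / 2) :=
          lintegral_mono fun x => sec_le hTZ hLN hCL hMD hMF V hV i a A hia haA hiA x
      _ = _ := by
          rw [lintegral_add_left (meas_sec (hMD N V hV (insert a A)).1 i a)]
          congr 1
          simp_rw [div_eq_mul_inv]
          rw [lintegral_mul_const _ (meas_sec (hMF N V hV {a}).1 i a)]
  have f2 := (hMD N V hV (insert a A)).2.1
  have f3 := (hMF N V hV {a}).2.1
  have hne : volume (cyl V {a}) / 2 ≠ ⊤ := ENNReal.div_ne_top f3 (by norm_num)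
  have := ENNReal.toReal_mono (ENNReal.add_ne_top.2 ⟨f2, hne⟩) key
  rw [ENNReal.toReal_add f2 hne, ENNReal.toReal_div] at this
  simpa [dv, W] using this

end Pool.Agent.Helper70.EQ.SP
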