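import Pool.Agent.Helper70.EQ.TZ
import Pool.Agent.Helper70.EQ.SP
import Pool.Agent.Helper70.EQ.FI
import Pool.Agent.Helper8.EQ.LN
import Pool.Agent.Helper91.EQ.MD
import Pool.Agent.Helper44.EQ.LA
import Pool.Agent.Helper62.EQ.CO
import Pool.Agent.Helper14.EQ.LB
import Pool.Agent.Helper46.EQ.UB
import Pool.Agent.Helper41.EQ.ML
import Pool.Agent.Helper94.EQ.PB
import Pool.Agent.Helper48.EQ.MT
import Pool.Agent.Helper70.EQ.MB0
import Pool.Agent.Helper64.EQ.SR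
import Pool.Agent.Helper17.EQ.N1
import Pool.Agent.Helper69.EQ.N2
import Pool.Agent.Helper65.KG.Asm
import Pool.Agent.Helper73.KN.TH
import Pool.Agent.Helper67.KN.SL
import Pool.Agent.Helper57.KN.CC
import Pool.Agent.Helper5.KN.Y1
import Pool.Agent.Helper32.KN.XX
import Pool.Agent.Helper2.KN.PO

/-!
# Project EQ (MP_20ee5e_ag): assembly
-/

open MeasureTheory Set

namespace Pool.Agent.Helper70.EQ

open Pool.Agent.Helper70.KN

theorem qTH : S_TH := Pool.Agent.Helper73.KN.TH.t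
theorem qSL : S_SL := Pool.Agent.Helper67.KN.SL.t pMF qTH pSI pSC
theorem qCC : S_CC := Pool.Agent.Helper57.KN.CC.t pMF qSL
theorem qY1 : S_Y1 := Pool.Agent.Helper5.KN.Y1.t qSL
theorem qXX : S_XX := Pool.Agent.Helper32.KN.XX.t qCC
theorem qPO : S_PO := Pool.Agent.Helper2.KN.PO.t pMF
theorem qTZ : G_TZ := Pool.Agent.Helper70.EQ.TZ.t
theorem qLN : G_LN := Pool.Agent.Helper8.EQ.LN.t pCL pBD
theorem qMD : G_MD := Pool.Agent.Helper91.EQ.MD.t pCL pMF
theorem qSP : G_SP := Pool.Agent.Helper70.EQ.SP.t' qTZ qLN pCL qMD pMF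
theorem qLA : G_LA := Pool.Agent.Helper44.EQ.LA.t pCL pMF qMD
theorem qCO : G_CO := Pool.Agent.Helper62.EQ.CO.t qMD
theorem qLB : G_LB := Pool.Agent.Helper14.EQ.LB.t qMD qSP qLA qCO
theorem qUB : G_UB := Pool.Agent.Helper46.EQ.UB.t pAV qY1 pY2 qXX
theorem qML : G_ML := Pool.Agent.Helper41.EQ.ML.t pCL pMF pSC
theorem qPB : G_PB := Pool.Agent.Helper94.EQ.PB.t qLB qUB qML
theorem qMT : G_MT := Pool.Agent.Helper48.EQ.MT.t pVJ
theorem qMB : G_MB := Pool.Agent.Helper70.EQ.MB0.t qMT qXX pAL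
theorem qSR : G_SR := Pool.Agent.Helper64.EQ.SR.t
theorem qN1 : G_N1 := Pool.Agent.Helper17.EQ.N1.t
theorem qN2 : G_N2 := Pool.Agent.Helper69.EQ.N2.t qSR
theorem qFI : G_FI := Pool.Agent.Helper70.EQ.FI.t qPB qMB qSR qPO

/-- The theorem for complete intersections with equal Newton diagrams, all parts together. -/
theorem main (n r : ℕ) (hn : 3 ≤ n) (hr : 1 ≤ r) (V : Finset (Fin (n + r) → ℕ)) (hV : Convenient V)
    (h0 : (0 : Fin (n + r) → ℕ) ∉ V) (c : ℕ) (hc : ∀ v ∈ V, ∀ i, v i ≠ 0 → c ≤ v i)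
    (h : (n + r) ^ 2 ≤ c ∧ (r ≤ 2 ∨ r ^ 2 ≤ n) ∨ n + r ≤ c ∧
      ((n : ℝ) + r - 1) ^ 4 * ∑ j ∈ Finset.range (r + 1), (r.choose j : ℝ) * (j : ℝ) ^ (n + r - 2) <
        4 * (c : ℝ) * (((n : ℝ) + r - 1) * (((n : ℝ) + r) * ((r.factorial : ℝ) * (Nat.stirlingSecond (n + r - 1) r : ℝ)) -
          ∑ j ∈ Finset.range (r + 1), (r.choose j : ℝ) * (j : ℝ) ^ (n + r - 1)) -
            2 * n * ((r.factorial : ℝ) * (Nat.stirlingSecond (n + r) r : ℝ)))) :
    (∀ j : ℕ, 1 ≤ j →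
        {p : Fin (n + r) → ℕ | (∀ i, 0 < p i) ∧ (fun i => (p i : ℝ)) ∉ interior (newton (mult j V))}.Finite) ∧
      (∀ I : Finset (Fin (n + r)), volume {y : I → ℝ | extz I y ∈ under V} ≠ ⊤) ∧
      ((n + r - 1).choose n : ℝ) * ((n + r).factorial : ℝ) * genusCI r V <
        (r.factorial : ℝ) * (Nat.stirlingSecond (n + r) r : ℝ) * milnorCI r V := by
  refine ⟨fun j hj => Pool.Agent.Helper65.KG.genus_finite _ (qML (n + r) V j hj hV).1,
    Pool.Agent.Helper65.KG.vol_finite V hV, ?_⟩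
  have hn' : (3 : ℝ) ≤ n := by exact_mod_cast hn
  have hr' : (1 : ℝ) ≤ r := by exact_mod_cast hr
  have hcle : n + r ≤ c := by
    rcases h with h | h
    · refine le_trans ?_ h.1
      nlinarith
    · exact h.1
  have hcR : (n : ℝ) + r ≤ c := by exact_mod_cast hcle
  have hT : Thick V (c : ℝ) := ⟨hV, by linarith, h0, fun v hv i hi => by exact_mod_cast hc v hv i hi⟩
  refine qFI n r V c hn hr hT hcR ?_
  rcases h with ⟨h1, h2⟩ | h
  · have h1' : ((n : ℝ) + r) ^ 2 ≤ c := by exact_mod_cast h1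
    rcases Nat.lt_or_ge r 3 with h3 | h3
    · exact qN1 n r c hn hr (by omega) h1'
    · rcases h2 with h2 | h2
      · omega
      · exact qN2 n r c h3 h2 h1'
  · unfold Num
    rw [(qSR r (n + r - 1)).1, (qSR r (n + r)).1]
    exact h.2

end Pool.Agent.Helper70.EQ
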