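import Pool.Agent.Helper70.KN.Goals

/-!
# Project EQ (MP_20ee5e_ag), complete intersections with equal Newton diagrams: definitions and goals

THEOREM E (helper70). `N = n + r`, `n ≥ 3`, `r ≥ 1`, `V` convenient, all nonzero coordinates `≥ c`, `c ≥ N` and
`(N-1)^4 t(N-2) < 4 c gap`: `C(N-1,n) N! genusCI < r! S(N,r) milnorCI`. Every packet is a `Prop` with its proof in the docstring.
Prove `theorem t : G_XX` (goals listed as USES are arguments `(h : G_YY)`; goals `S_XX` are those of Helper70/KN/Goals.lean, all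
landed, import their files). If a statement is false as it stands, mail helper70 at once.
-/

open MeasureTheory Set

namespace Pool.Agent.Helper70.EQ

open Pool.Agent.Helper70.KN

variable {N : ℕ}

/-- The exponents of `V` multiplied by `j`. -/
def mult (j : ℕ) (V : Finset (Fin N → ℕ)) : Finset (Fin N → ℕ) := V.image fun v i => j * v i

/-- The geometric genus of a non-degenerate complete intersection of `r` hypersurfaces with Newton polyhedron
`newton V` (Khovanskii): the alternating sum of the genera of the multiples of `V`. -/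
noncomputable def genusCI (r : ℕ) (V : Finset (Fin N → ℕ)) : ℝ :=
  ∑ j ∈ Finset.Icc 1 r, (-1) ^ (r - j) * (r.choose j : ℝ) * genus (mult j V)

/-- The Milnor number of a non-degenerate complete intersection of `r` hypersurfaces with Newton polyhedron
`newton V` (Khovanskii, Oka). -/
noncomputable def milnorCI (r : ℕ) (V : Finset (Fin N → ℕ)) : ℝ :=
  ∑ I ∈ Finset.univ.filter (fun I : Finset (Fin N) => r ≤ I.card),
    (-1) ^ (N - I.card) * ((I.card - 1).choose (r - 1) : ℝ) * (I.card.factorial : ℝ) * vol V I - (-1) ^ (N - r)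

/-- `s(M) = ∑_j (-1)^(r-j) C(r,j) j^M`. -/
def sj (r M : ℕ) : ℝ := ∑ j ∈ Finset.range (r + 1), (-1) ^ (r - j) * (r.choose j : ℝ) * (j : ℝ) ^ M

/-- `t(M) = ∑_j C(r,j) j^M`. -/
def tj (r M : ℕ) : ℝ := ∑ j ∈ Finset.range (r + 1), (r.choose j : ℝ) * (j : ℝ) ^ M

/-- The coordinates in `A` are replaced by the next larger integer. -/
noncomputable def up (A : Finset (Fin N)) (x : Fin N → ℝ) : Fin N → ℝ := fun k => if k ∈ A then (⌊x k⌋ : ℝ) + 1 else x k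

/-- The `x ≥ 0` for which `up A x` is not in the Newton polyhedron. -/
def D (V : Finset (Fin N → ℕ)) (A : Finset (Fin N)) : Set (Fin N → ℝ) := {x | 0 ≤ x ∧ up A x ∉ newton V}

/-- Its volume. -/
noncomputable def dv (V : Finset (Fin N → ℕ)) (A : Finset (Fin N)) : ℝ := (volume (D V A)).toReal

/-- TZ. Trapezoids.
PROOF. Both lower integrals are sums over `m : ℕ` of the integrals over `[m, m+1)`. For `s = m + u`, `0 ≤ u < 1`:
`φ s ≤ (1 - u) φ(m) + u φ(m+1)`, so the integral on the left over `[m, m+1)` is `≤ (φ(m) + φ(m+1))/2`, on the right it is `φ(m+1)`. -/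
def G_TZ : Prop := ∀ φ : ℝ → ℝ, ConvexOn ℝ (Ici 0) φ → (∀ s, 0 ≤ s → 0 ≤ φ s) →
  ∫⁻ s in Ici (0 : ℝ), ENNReal.ofReal (φ s) ≤
    ENNReal.ofReal (φ 0 / 2) + ∫⁻ s in Ici (0 : ℝ), ENNReal.ofReal (φ ((⌊s⌋ : ℝ) + 1))

/-- LN. The length of a column. USES: S_CL, S_BD.
PROOF. The set of the `t ≥ 0` with `update (update z a s) i t ∉ newton V` is `[0, ℓ)` or `[0, ℓ]` (upper set, BD). Antitone: upper set.
Convex (on `s ≥ 0`): for reals `p > ℓ(s)`, `p' > ℓ(s')` the points with `(s, p)`, `(s', p')` are in `newton V`, so is the convex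
combination. See Helper83/KN/LP.lean. -/
def G_LN : Prop := ∀ (N : ℕ) (V : Finset (Fin N → ℕ)), Convenient V → ∀ (i a : Fin N), a ≠ i → ∀ z : Fin N → ℝ, 0 ≤ z →
  (∀ s, 0 ≤ s → len V i (Function.update z a s) ≠ ⊤) ∧
  ConvexOn ℝ (Ici 0) fun s => (len V i (Function.update z a s)).toReal

/-- MD. PROOF. `newton V` is closed (CL), `up A` is measurable; `up A x ≥ x`, so `D V A ⊆ D V ∅ = cyl V ∅` (MF). -/
def G_MD : Prop := ∀ (N : ℕ) (V : Finset (Fin N → ℕ)), Convenient V → ∀ A : Finset (Fin N),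
  MeasurableSet (D V A) ∧ volume (D V A) ≠ ⊤ ∧ dv V ∅ = W V ∅

/-- SP. The step. USES: TZ, LN, MD, S_FB or S_SI and Fubini for functions (Helper15/KN/FBF.lean).
PROOF. `volume (D V A)` is the integral over `x` with `0 ≤ x i < 1`, `0 ≤ x a < 1` of the integral over `s ≥ 0` of
`len V i (update (up A x) a s)` (all other coordinates `≥ 0`); `volume (D V (insert a A))` is the same with `⌊s⌋ + 1` instead of `s`
in `len`. TZ and LN with `z = up A x`. The integral over `x` (as before) of `len V i (update (up A x) a 0)` is at most the same with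
`x` instead of `up A x` (upper set), which is `W V {a}`. -/
def G_SP : Prop := ∀ (N : ℕ) (V : Finset (Fin N → ℕ)), Convenient V → ∀ (i a : Fin N) (A : Finset (Fin N)), a ≠ i → a ∉ A → i ∉ A →
  dv V A ≤ dv V (insert a A) + W V {a} / 2

/-- LA. The last direction. USES: MD, S_MF.
PROOF. If `x ∈ D V (univ.erase i)` and `1 ≤ x i` then `x - e_i ∈ D V univ` (`⌊x i - 1⌋ + 1 ≤ x i`, upper set), and translations preserve
the volume. If `x i < 1` then `x ∈ cyl V {i}` (`zr {i} x ≤ up _ x`). -/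
def G_LA : Prop := ∀ (N : ℕ) (V : Finset (Fin N → ℕ)), Convenient V → ∀ i : Fin N,
  dv V (Finset.univ.erase i) ≤ dv V Finset.univ + W V {i}

/-- CO. Counting cubes. USES: MD, genus_finite (Helper65/KG/Asm.lean).
PROOF. `D V univ` is the union of the cubes `{x | ∀ k, p k - 1 ≤ x k < p k}` over the `p` with positive coordinates which are not in
`newton V`; these `p` belong to the finite set in `genus`. -/
def G_CO : Prop := ∀ (N : ℕ) (V : Finset (Fin N → ℕ)), Convenient V → dv V Finset.univ ≤ genus V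

/-- LB. Lower bound. USES: MD, SP, LA, CO.
PROOF. Induction over `A ⊆ univ.erase i`: `W V ∅ ≤ dv V A + ∑_{a ∈ A} W V {a} / 2`. So
`W V ∅ ≤ genus V + ∑_{a ≠ i} W V {a} / 2 + W V {i}`; add over `i`: `N W V ∅ ≤ N genus V + (N + 1) / 2 * X V 1`; times `(N-1)!`. -/
def G_LB : Prop := ∀ (N : ℕ), 1 ≤ N → ∀ (V : Finset (Fin N → ℕ)), Convenient V →
  T V 0 - ((N : ℝ) + 1) / 2 * T V 1 ≤ (N.factorial : ℝ) * genus V

/-- UB. Upper bound. USES: S_AV, S_Y1, S_Y2, S_XX.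
PROOF. AV with `h = 1/2` (`c ≥ 1/2` for Y1), `Y V (1/2) {i} ≥ (1/2 - (N-1)/(8c)) W V {i}`, `Y V (1/2) J ≤ W V J / 4`; times `(N-1)!`;
`(N-1)! X V 2 = (N-1) T V 2` and `2 c T V 2 ≤ (N-1) T V 1`. -/
def G_UB : Prop := ∀ (N : ℕ) (V : Finset (Fin N → ℕ)) (c : ℝ), 3 ≤ N → Thick V c → 1 ≤ c →
  (N.factorial : ℝ) * genus V ≤ T V 0 - ((N : ℝ) - 1) / 2 * T V 1 + ((N : ℝ) - 1) ^ 3 / (8 * c) * T V 1

/-- ML. Multiples. USES: S_CL, S_MF, S_SC.
PROOF. `newton (mult j V) = {x | x / j ∈ newton V}`. `cyl (mult j V) J` is `{x | (x k / j if k ∉ J, x k if k ∈ J) ∈ cyl V J}` (SC with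
`D_k = j` or `1`): `W (mult j V) J = j^(N-|J|) W V J`; sum over `|J| = k`. -/
def G_ML : Prop := ∀ (N : ℕ) (V : Finset (Fin N → ℕ)) (j : ℕ), 1 ≤ j → Convenient V →
  Convenient (mult j V) ∧ (∀ c : ℝ, Thick V c → Thick (mult j V) (j * c)) ∧
    ∀ k, k ≤ N → T (mult j V) k = (j : ℝ) ^ (N - k) * T V k

/-- PB. The upper bound of the geometric genus. USES: LB, UB, ML.
PROOF. UB for `mult j V` if `r - j` is even, LB if it is odd. In both cases `(-1)^(r-j) N! genus (mult j V)` is at most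
`(-1)^(r-j) (j^N T0 - N/2 j^(N-1) T1) + j^(N-1) T1 / 2 + (N-1)^3 / (8c) j^(N-2) T1`. -/
def G_PB : Prop := ∀ (N r : ℕ) (V : Finset (Fin N → ℕ)) (c : ℝ), 3 ≤ N → Thick V c → 1 ≤ c →
  (N.factorial : ℝ) * genusCI r V ≤ sj r N * T V 0 - (N * sj r (N - 1) - tj r (N - 1)) / 2 * T V 1 +
    ((N : ℝ) - 1) ^ 3 / (8 * c) * tj r (N - 2) * T V 1

/-- MT. The Milnor number in terms of `T`. USES: S_VJ. PROOF. As Helper98/KN/KO.lean: `J = Iᶜ`, group by `k = |J|`. -/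
def G_MT : Prop := ∀ (N r : ℕ) (V : Finset (Fin N → ℕ)), 1 ≤ r → r ≤ N →
  milnorCI r V = ∑ k ∈ Finset.range (N - r + 1), (-1) ^ k * ((N - k - 1).choose (r - 1) : ℝ) * T V k - (-1) ^ (N - r)

/-- MB. The lower bound of the Milnor number. USES: MT, S_XX, S_AL.
PROOF. `n = N - r`, `b k = C(N-k-1, r-1) T V k` for `k ≤ n`, `b (n+1) = 1`, `b k = 0` for `k > n + 1`. It decreases from `k = 0` on: binomials
decrease, `(k+1) c T V (k+1) ≤ (N-k) T V k` and `c ≥ N`; `b n = T V n ≥ T V N = 1` (`W V univ = 1` as `0 ∉ newton V`). By AL (with `n + 1`)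
`milnorCI r V = ∑_{k ≤ n+1} (-1)^k b k ≥ b 0 - b 1 + b 2 - b 3 ≥ b 0 - b 1`. -/
def G_MB : Prop := ∀ (N r : ℕ) (V : Finset (Fin N → ℕ)) (c : ℝ), 1 ≤ r → r + 3 ≤ N → Thick V c → (N : ℝ) ≤ c →
  ((N - 1).choose (r - 1) : ℝ) * T V 0 - ((N - 2).choose (r - 1) : ℝ) * T V 1 ≤ milnorCI r V

/-- SR. Stirling numbers. PROOF. Both sides satisfy `f(M+1, r) = r (f(M, r) + f(M, r-1))`, `f(0, r) = 0` for `r ≥ 1`, `f(M, 0) = 0` for `M ≥ 1`,
`f(0, 0) = 1`: for the left side `j C(r,j) = r (C(r,j) - C(r-1,j))`. Last: `∑_{s ≤ r} C(r,s) f(M, s) = r^M` (induction on `M` or inversion),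
so `f(M,r) ≤ r^M` and `r^M - f(M,r) = ∑_{s < r} C(r,s) f(M,s) ≤ r ∑_{s<r} C(r-1,s) f(M,s) = r (r-1)^M`. -/
def G_SR : Prop := ∀ r M : ℕ, sj r M = (r.factorial : ℝ) * (Nat.stirlingSecond M r : ℝ) ∧ sj r M ≤ (r : ℝ) ^ M ∧
  (1 ≤ r → (r : ℝ) ^ M - r * ((r : ℝ) - 1) ^ M ≤ sj r M)

/-- The numerical condition. -/
def Num (n r : ℕ) (c : ℝ) : Prop := ((n : ℝ) + r - 1) ^ 4 * tj r (n + r - 2) <
  4 * c * (((n : ℝ) + r - 1) * (((n : ℝ) + r) * sj r (n + r - 1) - tj r (n + r - 1)) - 2 * n * sj r (n + r))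

/-- N1. PROOF. `r = 1`: `sj = tj = 1` (exponents `≥ 1`), the claim is `n^4 < 4 c n (n - 2)`. `r = 2`: `sj 2 M = 2^M - 2`, `tj 2 M = 2^M + 2`,
`N = n + 2`: the right side is `4 c (2^(N-1) (N-3)^2 - 2N^2 + 4N - 6)`. -/
def G_N1 : Prop := ∀ (n r : ℕ) (c : ℝ), 3 ≤ n → 1 ≤ r → r ≤ 2 → ((n : ℝ) + r) ^ 2 ≤ c → Num n r c

/-- N2. USES: SR.
PROOF. `N = n + r`, `x = (1 - 1/r)^(N-2)`, `r x ≤ 1/4` (`N - 2 ≥ r²`, `(1 - 1/r)^r ≤ 1/2`, `r/2^r ≤ 1/4` for `r ≥ 4`; `r = 3`: `N - 2 ≥ 10`).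
`tj r M ≤ r^M (1 + y)^r`, `y = (1 - 1/r)^M` (Bernoulli), `(1+y)^r ≤ 1/(1 - r y) ≤ 4/3` for `M = N-1, N-2`; `sj r (N-1) ≥ (3/4) r^(N-1)`, `sj r N ≤ r^N`.
So the bracket is `≥ r^(N-1) g`, `g = (N-1)(3N/4 - 4/3) - 2 n r`, and `(N-1)^2 ≤ 9 g` (polynomial, `n ≥ 3r`, `r ≥ 3`), hence
`(N-1)^4 (4/3) r^(N-2) < 4 N² r^(N-1) g`. -/
def G_N2 : Prop := ∀ (n r : ℕ) (c : ℝ), 3 ≤ r → r ^ 2 ≤ n → ((n : ℝ) + r) ^ 2 ≤ c → Num n r c

/-- FI (helper70). -/
def G_FI : Prop := ∀ (n r : ℕ) (V : Finset (Fin (n + r) → ℕ)) (c : ℝ), 3 ≤ n → 1 ≤ r → Thick V c → (n : ℝ) + r ≤ c → Num n r c →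
  ((n + r - 1).choose n : ℝ) * ((n + r).factorial : ℝ) * genusCI r V <
    (r.factorial : ℝ) * (Nat.stirlingSecond (n + r) r : ℝ) * milnorCI r V

end Pool.Agent.Helper70.EQ
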