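import Pool.Agent.Helper70.EQ.Goals

/-!
# EQ-TZ: the trapezoid inequality for a convex function
-/

open MeasureTheory Set

namespace Pool.Agent.Helper70.EQ.TZ

open Pool.Agent.Helper70.EQ

theorem cells (f : ℝ → ENNReal) : ∫⁻ s in Ici (0 : ℝ), f s = ∑' m : ℕ, ∫⁻ s in Ico (m : ℝ) (m + 1), f s := by
  have h : Ici (0 : ℝ) = ⋃ m : ℕ, Ico (m : ℝ) (m + 1) := by
    ext s
    simp only [mem_Ici, mem_iUnion, mem_Ico]
    constructor
    · intro hs
      exact ⟨⌊s⌋₊, Nat.floor_le hs, Nat.lt_floor_add_one s⟩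
    · rintro ⟨m, hm, -⟩
      exact (Nat.cast_nonneg m).trans hm
  rw [h, lintegral_iUnion (fun m => measurableSet_Ico)]
  intro m m' hmm
  rw [Function.onFun, disjoint_left]
  intro s hs hs'
  apply hmm
  have h1 : ((m : ℤ) : ℝ) < ((m' : ℤ) : ℝ) + 1 := by push_cast; exact hs.1.trans_lt hs'.2
  have h2 : ((m' : ℤ) : ℝ) < ((m : ℤ) : ℝ) + 1 := by push_cast; exact hs'.1.trans_lt hs.2
  have h3 : (m : ℤ) < (m' : ℤ) + 1 := by exact_mod_cast h1
  have h4 : (m' : ℤ) < (m : ℤ) + 1 := by exact_mod_cast h2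
  omega

theorem t : G_TZ := by
  intro φ hc h0
  rw [cells, cells]
  have hL : ∀ m : ℕ, ∫⁻ s in Ico (m : ℝ) (m + 1), ENNReal.ofReal (φ s) ≤
      ENNReal.ofReal (φ m / 2) + ENNReal.ofReal (φ (m + 1) / 2) := by
    intro m
    have hm : (0 : ℝ) ≤ m := Nat.cast_nonneg m
    have hm1 : (0 : ℝ) ≤ (m : ℝ) + 1 := by positivity
    have hp : ∀ s ∈ Ico (m : ℝ) (m + 1), ENNReal.ofReal (φ s) ≤
        ENNReal.ofReal ((m + 1 - s) * φ m + (s - m) * φ (m + 1)) := by
      intro s hs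
      apply ENNReal.ofReal_le_ofReal
      have ha : (0 : ℝ) ≤ (m : ℝ) + 1 - s := by linarith [hs.2]
      have hb : (0 : ℝ) ≤ s - (m : ℝ) := by linarith [hs.1]
      have := hc.2 (mem_Ici.2 hm) (mem_Ici.2 hm1) ha hb (by ring)
      simp only [smul_eq_mul] at this
      rwa [show ((m : ℝ) + 1 - s) * m + (s - m) * (m + 1) = s by ring] at this
    calc ∫⁻ s in Ico (m : ℝ) (m + 1), ENNReal.ofReal (φ s)
        ≤ ∫⁻ s in Ico (m : ℝ) (m + 1), ENNReal.ofReal ((m + 1 - s) * φ m + (s - m) * φ (m + 1)) :=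
          setLIntegral_mono' measurableSet_Ico hp
      _ = ENNReal.ofReal (∫ s in Ico (m : ℝ) (m + 1), ((m + 1 - s) * φ m + (s - m) * φ (m + 1))) := by
          rw [ofReal_integral_eq_lintegral_ofReal]
          · refine (Continuous.integrableOn_Icc (by fun_prop)).mono_set Ico_subset_Icc_self
          · refine (ae_restrict_iff' measurableSet_Ico).2 (Filter.Eventually.of_forall fun s hs => ?_)
            have a1 := mul_nonneg (by linarith [hs.2] : (0 : ℝ) ≤ (m : ℝ) + 1 - s) (h0 m hm)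
            have a2 := mul_nonneg (by linarith [hs.1] : (0 : ℝ) ≤ s - (m : ℝ)) (h0 (m + 1) hm1)
            simp only [Pi.zero_apply]
            linarith
      _ = ENNReal.ofReal (φ m / 2 + φ (m + 1) / 2) := by
          congr 1
          rw [integral_Ico_eq_integral_Ioc, ← intervalIntegral.integral_of_le (by linarith)]
          have e : ∀ s : ℝ, (m + 1 - s) * φ m + (s - m) * φ (m + 1) =
              (((m : ℝ) + 1) * φ m - m * φ (m + 1)) + (φ (m + 1) - φ m) * s := fun s => by ring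
          simp_rw [e]
          rw [intervalIntegral.integral_add (by simp) (Continuous.intervalIntegrable (by fun_prop) _ _),
            intervalIntegral.integral_const, intervalIntegral.integral_const_mul, integral_id]
          simp only [smul_eq_mul]
          ring
      _ = ENNReal.ofReal (φ m / 2) + ENNReal.ofReal (φ (m + 1) / 2) :=
          ENNReal.ofReal_add (by linarith [h0 m hm]) (by linarith [h0 (m + 1) hm1])
  have hR : ∀ m : ℕ, ∫⁻ s in Ico (m : ℝ) (m + 1), ENNReal.ofReal (φ ((⌊s⌋ : ℝ) + 1)) =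
      ENNReal.ofReal (φ (m + 1) / 2) + ENNReal.ofReal (φ (m + 1) / 2) := by
    intro m
    have hm1 : (0 : ℝ) ≤ (m : ℝ) + 1 := by positivity
    rw [← ENNReal.ofReal_add (by linarith [h0 (m + 1) hm1]) (by linarith [h0 (m + 1) hm1]), add_halves]
    have e : ∀ s ∈ Ico (m : ℝ) (m + 1), ENNReal.ofReal (φ ((⌊s⌋ : ℝ) + 1)) = ENNReal.ofReal (φ (m + 1)) := by
      intro s hs
      have : ⌊s⌋ = (m : ℤ) := Int.floor_eq_iff.2 ⟨by exact_mod_cast hs.1, by exact_mod_cast hs.2⟩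
      rw [this]
      norm_num
    rw [setLIntegral_congr_fun measurableSet_Ico e]
    simp
  calc ∑' m : ℕ, ∫⁻ s in Ico (m : ℝ) (m + 1), ENNReal.ofReal (φ s)
      ≤ ∑' m : ℕ, (ENNReal.ofReal (φ m / 2) + ENNReal.ofReal (φ (m + 1) / 2)) := ENNReal.tsum_le_tsum hL
    _ = (∑' m : ℕ, ENNReal.ofReal (φ m / 2)) + ∑' m : ℕ, ENNReal.ofReal (φ (m + 1) / 2) := ENNReal.tsum_add
    _ = ENNReal.ofReal (φ 0 / 2) + (∑' m : ℕ, ENNReal.ofReal (φ (m + 1) / 2)) +
          ∑' m : ℕ, ENNReal.ofReal (φ (m + 1) / 2) := by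
        rw [tsum_eq_zero_add' ENNReal.summable]
        simp
    _ = ENNReal.ofReal (φ 0 / 2) + ∑' m : ℕ, ∫⁻ s in Ico (m : ℝ) (m + 1), ENNReal.ofReal (φ ((⌊s⌋ : ℝ) + 1)) := by
        rw [add_assoc, ← ENNReal.tsum_add]
        simp_rw [hR]

end Pool.Agent.Helper70.EQ.TZ
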